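import Pool.Agent.Y627.EP.Sec
import Pool.Agent.Y124.NFPoly

/-!
# Independence of exponential functions over functions of moderate growth
-/

set_option autoImplicit false

open Filter Topology MvPolynomial

namespace Pool.Agent.Y627.EP

/-- evaluation and the isomorphism of the polynomial rings -/
lemma eval_sum {S₁ S₂ : Type} (x : S₁ → ℂ) (y : S₂ → ℂ) (P : MvPolynomial (S₁ ⊕ S₂) ℂ) :
    eval (Sum.elim x y) P = eval x (map (eval y) (sumAlgEquiv ℂ S₁ S₂ P)) := by
  induction P using MvPolynomial.induction_on with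
  | C c => rw [sumAlgEquiv_C_inl, map_C, eval_C, eval_C, eval_C]
  | add p q hp hq => simp only [map_add, hp, hq]
  | mul_X p i hp =>
    rw [map_mul, map_mul, map_mul, map_mul, hp]
    congr 1
    rcases i with i | i
    · rw [sumAlgEquiv_X_inl, map_X, eval_X, eval_X]
      rfl
    · rw [sumAlgEquiv_X_inr, map_C, eval_C, eval_X, eval_X]
      rfl

lemma norm_eval_le {S : Type} (P : MvPolynomial S ℂ) (y : S → ℂ) (B : ℝ) (hB : 1 ≤ B) (hy : ∀ i, ‖y i‖ ≤ B) :
    ‖eval y P‖ ≤ (∑ s ∈ P.support, ‖P.coeff s‖) * B ^ P.totalDegree := by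
  rw [eval_eq, Finset.sum_mul]
  refine (norm_sum_le _ _).trans (Finset.sum_le_sum fun s hs => ?_)
  rw [norm_mul]
  apply mul_le_mul_of_nonneg_left _ (norm_nonneg _)
  rw [norm_prod]
  calc ∏ i ∈ s.support, ‖y i ^ s i‖ ≤ ∏ i ∈ s.support, B ^ s i := by
        apply Finset.prod_le_prod (fun _ _ => norm_nonneg _)
        intro i _
        rw [norm_pow]
        exact pow_le_pow_left₀ (norm_nonneg _) (hy i) _
    _ = B ^ (∑ i ∈ s.support, s i) := Finset.prod_pow_eq_pow_sum _ _ _
    _ ≤ B ^ P.totalDegree := pow_le_pow_right₀ hB (le_totalDegree hs)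

/-- **Independence.** Let `f_1, …, f_k` be analytic on the connected open set `U`, which contains a sector of opening
larger than `π`, of moderate growth there, and algebraically independent over `ℂ(z)`; let `lam_1, …, lam_r` be real
numbers, linearly independent over the rationals. Then `f_i`, `exp (lam_l z)` are algebraically independent over
`ℂ(z)`, near every point of `U`. -/
theorem indep {k r : ℕ} (U : Set ℂ) (hU : IsPreconnected U) (f : Fin k → ℂ → ℂ)
    (hf : ∀ i, AnalyticOnNhd ℂ (f i) U) {R δ : ℝ} {N : ℕ} (hδ : 0 < δ) (hS : InSec R δ ⊆ U)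
    (hgr : ∀ i, ∀ z ∈ InSec R δ, ‖f i z‖ ≤ ‖z‖ ^ N)
    (hind : ∀ P : MvPolynomial (Option (Fin k)) ℂ, (∀ z ∈ U, eval (fun o => o.elim z fun i => f i z) P = 0) → P = 0)
    (lam : Fin r → ℝ) (hlam : ∀ c : Fin r → ℤ, ∑ l, (c l : ℝ) * lam l = 0 → c = 0) (t0 : ℂ) (ht0 : t0 ∈ U) :
    Y124.LocInd (𝕜 := ℂ) (Sum.elim (fun l : Fin r => fun z => Complex.exp (lam l * z)) f) t0 := by
  classical
  intro P hP
  -- the polynomial over the polynomial ring
  let e : Option (Fin r ⊕ Fin k) → Fin r ⊕ Option (Fin k) := fun o =>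
    o.elim (Sum.inr none) (Sum.elim Sum.inl fun i => Sum.inr (some i))
  have he : Function.Injective e := by
    intro a b hab
    rcases a with _ | a | a <;> rcases b with _ | b | b <;> simp_all [e]
  obtain ⟨Q, hQ⟩ : ∃ Q, Q = sumAlgEquiv ℂ (Fin r) (Option (Fin k)) (rename e P) := ⟨_, rfl⟩
  let xx : ℂ → Fin r → ℂ := fun z l => Complex.exp (lam l * z)
  let yy : ℂ → Option (Fin k) → ℂ := fun z o => o.elim z fun i => f i z
  have hval : ∀ z, eval (fun o : Option (Fin r ⊕ Fin k) => o.elim z fun y =>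
      (Sum.elim (fun l : Fin r => fun z => Complex.exp (lam l * z)) f : Fin r ⊕ Fin k → ℂ → ℂ) y z) P =
      eval (xx z) (map (eval (yy z)) Q) := by
    intro z
    rw [hQ, ← eval_sum, eval_rename]
    congr 1
    congr 1
    funext o
    rcases o with _ | y | y <;> rfl
  have hyy : ∀ o, AnalyticOnNhd ℂ (fun z => yy z o) U := by
    intro o
    rcases o with _ | i
    · exact analyticOnNhd_id
    · exact hf i
  have hcoef : ∀ p : MvPolynomial (Option (Fin k)) ℂ, AnalyticOnNhd ℂ (fun z => eval (yy z) p) U := by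
    intro p
    have : (fun z => eval (yy z) p) = fun z => ∑ s ∈ p.support, p.coeff s * ∏ i ∈ s.support, yy z i ^ s i := by
      funext z
      rw [eval_eq]
    rw [this]
    apply Finset.analyticOnNhd_fun_sum
    intro s _
    apply AnalyticOnNhd.mul analyticOnNhd_const
    apply Finset.analyticOnNhd_fun_prod
    intro i _
    exact (hyy i).pow _
  let mu : (Fin r →₀ ℕ) → ℝ := fun ν => ∑ l, (ν l : ℝ) * lam l
  have hmuinj : ∀ ν ν', mu ν = mu ν' → ν = ν' := by
    intro ν ν' h
    have h1 : ∑ l, (((ν l : ℤ) - (ν' l : ℤ) : ℤ) : ℝ) * lam l = 0 := by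
      have h2 : ∑ l, (((ν l : ℤ) - (ν' l : ℤ) : ℤ) : ℝ) * lam l = mu ν - mu ν' := by
        simp only [mu, ← Finset.sum_sub_distrib]
        refine Finset.sum_congr rfl fun l _ => ?_
        push_cast
        ring
      rw [h2, h, sub_self]
    have h3 := hlam _ h1
    ext l
    have h4 := congrFun h3 l
    simp only [Pi.zero_apply] at h4
    omega
  have hexp : ∀ z, eval (xx z) (map (eval (yy z)) Q) =
      ∑ ν ∈ Q.support, eval (yy z) (Q.coeff ν) * Complex.exp ((mu ν : ℝ) * z) := by
    intro z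
    rw [eval_map, eval₂_eq']
    refine Finset.sum_congr rfl fun ν _ => ?_
    congr 1
    simp only [xx, mu]
    have h1 : ((∑ l, (ν l : ℝ) * lam l : ℝ) : ℂ) * z = ∑ l, (ν l : ℂ) * (lam l * z) := by
      push_cast
      rw [Finset.sum_mul]
      exact Finset.sum_congr rfl fun l _ => by ring
    rw [h1, Complex.exp_sum]
    exact Finset.prod_congr rfl fun l _ => (Complex.exp_nat_mul _ _).symm
  -- the sum vanishes on `U`
  have hzero : ∀ z ∈ U, ∑ ν ∈ Q.support, eval (yy z) (Q.coeff ν) * Complex.exp ((mu ν : ℝ) * z) = 0 := by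
    have han : AnalyticOnNhd ℂ (fun z => ∑ ν ∈ Q.support, eval (yy z) (Q.coeff ν) * Complex.exp ((mu ν : ℝ) * z)) U := by
      apply Finset.analyticOnNhd_fun_sum
      intro ν _
      apply (hcoef _).mul
      exact (analyticOnNhd_const.mul analyticOnNhd_id).cexp
    have h1 := han.eqOn_zero_of_preconnected_of_eventuallyEq_zero hU ht0 (by
      filter_upwards [hP] with z hz
      rw [hval z, hexp z] at hz
      exact hz)
    exact fun z hz => h1 hz
  -- suppose that `Q ≠ 0`
  have hQ0 : Q = 0 := by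
    by_contra hne
    have hsupp : Q.support.Nonempty := support_nonempty.2 hne
    obtain ⟨ν0, hν0, hmax⟩ := Q.support.exists_max_image mu hsupp
    have hlt : ∀ ν ∈ Q.support.erase ν0, mu ν < mu ν0 := by
      intro ν hν
      rw [Finset.mem_erase] at hν
      exact lt_of_le_of_ne (hmax ν hν.2) fun h => hν.1 (hmuinj _ _ h)
    obtain ⟨c, hc, hcle⟩ : ∃ c : ℝ, 0 < c ∧ ∀ ν ∈ Q.support.erase ν0, c ≤ mu ν0 - mu ν := by
      rcases (Q.support.erase ν0).eq_empty_or_nonempty with h | h
      · exact ⟨1, one_pos, by rw [h]; simp⟩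
      · obtain ⟨ν1, hν1, hmin⟩ := (Q.support.erase ν0).exists_min_image (fun ν => mu ν0 - mu ν) h
        exact ⟨mu ν0 - mu ν1, by linarith [hlt ν1 hν1], hmin⟩
    -- growth of the coefficients
    obtain ⟨M, hM⟩ : ∃ M : ℕ, ∀ ν ∈ Q.support, (N + 1) * (Q.coeff ν).totalDegree ≤ M :=
      ⟨∑ ν ∈ Q.support, (N + 1) * (Q.coeff ν).totalDegree, fun ν hν =>
        Finset.single_le_sum (f := fun ν => (N + 1) * (Q.coeff ν).totalDegree) (fun _ _ => Nat.zero_le _) hν⟩
    obtain ⟨C, hC⟩ : ∃ C : ℝ, C = ∑ ν ∈ Q.support, ∑ s ∈ (Q.coeff ν).support, ‖(Q.coeff ν).coeff s‖ := ⟨_, rfl⟩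
    have hC0 : 0 ≤ C := by
      rw [hC]
      exact Finset.sum_nonneg fun _ _ => Finset.sum_nonneg fun _ _ => norm_nonneg _
    have hgrow : ∀ ν ∈ Q.support, ∀ z ∈ InSec (max R 1) δ, ‖eval (yy z) (Q.coeff ν)‖ ≤
        (∑ s ∈ (Q.coeff ν).support, ‖(Q.coeff ν).coeff s‖) * ‖z‖ ^ M := by
      intro ν hν z hz
      have hz1 : 1 ≤ ‖z‖ := ((le_max_right R 1).trans_lt hz.1).le
      have hzR : z ∈ InSec R δ := ⟨(le_max_left R 1).trans_lt hz.1, hz.2⟩
      have hy : ∀ o, ‖yy z o‖ ≤ ‖z‖ ^ (N + 1) := by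
        intro o
        rcases o with _ | i
        · calc ‖z‖ = ‖z‖ ^ 1 := (pow_one _).symm
            _ ≤ _ := pow_le_pow_right₀ hz1 (by omega)
        · exact (hgr i z hzR).trans (pow_le_pow_right₀ hz1 (by omega))
      refine (norm_eval_le _ _ _ (one_le_pow₀ hz1) hy).trans ?_
      rw [← pow_mul]
      apply mul_le_mul_of_nonneg_left _ (Finset.sum_nonneg fun _ _ => norm_nonneg _)
      exact pow_le_pow_right₀ hz1 (hM ν hν)
    have hgrowC : ∀ ν ∈ Q.support, ∀ z ∈ InSec (max R 1) δ, ‖eval (yy z) (Q.coeff ν)‖ ≤ C * ‖z‖ ^ M := by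
      intro ν hν z hz
      refine (hgrow ν hν z hz).trans ?_
      apply mul_le_mul_of_nonneg_right _ (by positivity)
      rw [hC]
      exact Finset.single_le_sum (f := fun ν => ∑ s ∈ (Q.coeff ν).support, ‖(Q.coeff ν).coeff s‖)
        (fun _ _ => Finset.sum_nonneg fun _ _ => norm_nonneg _) hν
    have hSU : InSec (max R 1) δ ⊆ U := fun z hz => hS ⟨(le_max_left R 1).trans_lt hz.1, hz.2⟩
    obtain ⟨X0, hX0, hvan⟩ := sec_zero (a := fun z => eval (yy z) (Q.coeff ν0)) (R := max R 1) (δ := δ) (c := c)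
      (C := C) (N := M) hδ hc (fun z hz => ((hcoef _) z (hSU hz)).differentiableAt) (hgrowC ν0 hν0) (by
        intro x hx hx0
        have hxm : (x : ℂ) ∈ InSec (max R 1) δ := ofReal_mem hδ hx0 hx
        have h1 := hzero x (hSU hxm)
        rw [← Finset.add_sum_erase _ _ hν0] at h1
        have h2 : eval (yy x) (Q.coeff ν0) = -∑ ν ∈ Q.support.erase ν0,
            eval (yy x) (Q.coeff ν) * Complex.exp (((mu ν - mu ν0 : ℝ) : ℂ) * x) := by
          have h3 : Complex.exp ((mu ν0 : ℝ) * x) ≠ 0 := Complex.exp_ne_zero _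
          have h4 : (∑ ν ∈ Q.support.erase ν0, eval (yy x) (Q.coeff ν) *
              Complex.exp (((mu ν - mu ν0 : ℝ) : ℂ) * x)) * Complex.exp ((mu ν0 : ℝ) * x) =
              ∑ ν ∈ Q.support.erase ν0, eval (yy x) (Q.coeff ν) * Complex.exp ((mu ν : ℝ) * x) := by
            rw [Finset.sum_mul]
            refine Finset.sum_congr rfl fun ν _ => ?_
            rw [mul_assoc, ← Complex.exp_add]
            congr 2
            push_cast
            ring
          apply mul_right_cancel₀ h3
          rw [neg_mul, h4]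
          exact eq_neg_of_add_eq_zero_left h1
        rw [h2, norm_neg]
        have hxn : ‖(x : ℂ)‖ = x := by rw [Complex.norm_real, Real.norm_eq_abs, abs_of_pos hx0]
        calc ‖∑ ν ∈ Q.support.erase ν0, eval (yy x) (Q.coeff ν) * Complex.exp (((mu ν - mu ν0 : ℝ) : ℂ) * x)‖
            ≤ ∑ ν ∈ Q.support.erase ν0, (∑ s ∈ (Q.coeff ν).support, ‖(Q.coeff ν).coeff s‖) * x ^ M *
                Real.exp (-(c * x)) := by
              refine (norm_sum_le _ _).trans (Finset.sum_le_sum fun ν hν => ?_)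
              rw [norm_mul]
              have h5 := hgrow ν (Finset.mem_of_mem_erase hν) x hxm
              rw [hxn] at h5
              have h6 : ‖Complex.exp (((mu ν - mu ν0 : ℝ) : ℂ) * x)‖ ≤ Real.exp (-(c * x)) := by
                rw [Complex.norm_exp, ← Complex.ofReal_mul, Complex.ofReal_re]
                apply Real.exp_le_exp.2
                have := hcle ν hν
                nlinarith
              exact mul_le_mul h5 h6 (norm_nonneg _) (by positivity)
          _ = (∑ ν ∈ Q.support.erase ν0, ∑ s ∈ (Q.coeff ν).support, ‖(Q.coeff ν).coeff s‖) * x ^ M *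
                Real.exp (-(c * x)) := by rw [← Finset.sum_mul, ← Finset.sum_mul]
          _ ≤ C * x ^ M * Real.exp (-(c * x)) := by
              have h7 : (∑ ν ∈ Q.support.erase ν0, ∑ s ∈ (Q.coeff ν).support, ‖(Q.coeff ν).coeff s‖) ≤ C := by
                rw [hC]
                exact Finset.sum_le_sum_of_subset_of_nonneg (Finset.erase_subset _ _)
                  fun _ _ _ => Finset.sum_nonneg fun _ _ => norm_nonneg _
              gcongr)
    -- the identity theorem
    have hz0 : ∀ z ∈ U, eval (yy z) (Q.coeff ν0) = 0 := by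
      obtain ⟨x0, hx0⟩ : ∃ x0 : ℝ, x0 = max (X0 + 1) (max R 1 + 1) := ⟨_, rfl⟩
      have hx0X : X0 < x0 := by
        rw [hx0]
        exact lt_of_lt_of_le (by linarith) (le_max_left _ _)
      have hx0R : max R 1 < x0 := by
        rw [hx0]
        exact lt_of_lt_of_le (by linarith) (le_max_right _ _)
      have hx0U : (x0 : ℂ) ∈ U := hSU (ofReal_mem hδ (by linarith) hx0R)
      have hfreq : ∃ᶠ z in 𝓝[≠] (x0 : ℂ), eval (yy z) (Q.coeff ν0) = 0 := by
        have hseq : Tendsto (fun n : ℕ => (((x0 + 1 / ((n : ℝ) + 1) : ℝ)) : ℂ)) atTop (𝓝[≠] (x0 : ℂ)) := by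
          apply tendsto_nhdsWithin_of_tendsto_nhds_of_eventually_within
          · have h1 : Tendsto (fun n : ℕ => x0 + 1 / ((n : ℝ) + 1)) atTop (𝓝 (x0 + 0)) :=
              tendsto_const_nhds.add tendsto_one_div_add_atTop_nhds_zero_nat
            rw [add_zero] at h1
            exact (Complex.continuous_ofReal.tendsto x0).comp h1
          · refine Eventually.of_forall fun n => ?_
            rw [Set.mem_compl_iff, Set.mem_singleton_iff]
            intro h
            have h2 : x0 + 1 / ((n : ℝ) + 1) = x0 := by exact_mod_cast h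
            have h3 : (0 : ℝ) < 1 / ((n : ℝ) + 1) := by positivity
            linarith
        apply hseq.frequently
        apply Eventually.frequently
        refine Eventually.of_forall fun n => hvan _ ?_
        have h3 : (0 : ℝ) < 1 / ((n : ℝ) + 1) := by positivity
        linarith
      have h1 := (hcoef (Q.coeff ν0)).eqOn_zero_of_preconnected_of_frequently_eq_zero hU hx0U hfreq
      exact fun z hz => h1 hz
    have h2 := hind _ hz0
    exact (mem_support_iff.1 hν0) h2
  have h3 : rename e P = 0 := by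
    apply (sumAlgEquiv ℂ (Fin r) (Option (Fin k))).injective
    rw [← hQ, hQ0, map_zero]
  exact rename_injective e he (by rw [h3, map_zero])

end Pool.Agent.Y627.EP
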