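import Mathlib

/-!
# Functions of moderate growth in a sector of opening larger than `π` and exponential functions
-/

set_option autoImplicit false

open Filter Topology Asymptotics Bornology

namespace Pool.Agent.Y627.EP

/-- the sector `|z| > R`, `|arg z| < π/2 + δ` -/
def InSec (R δ : ℝ) : Set ℂ := {z | R < ‖z‖ ∧ |z.arg| < Real.pi / 2 + δ}

lemma ofReal_mem {R δ x : ℝ} (hδ : 0 < δ) (hx : 0 < x) (hR : R < x) : (x : ℂ) ∈ InSec R δ := by
  refine ⟨?_, ?_⟩
  · rw [Complex.norm_real, Real.norm_eq_abs, abs_of_pos hx]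
    exact hR
  · rw [Complex.arg_ofReal_of_nonneg hx.le, abs_zero]
    have := Real.pi_pos
    positivity

/-- the map `w ↦ (w + ρ)^(1+η)` of the right half plane into the sector -/
lemma phi_mem {R δ ρ η : ℝ} (hη0 : 0 < η) (hη1 : η < 1) (hη : η * (Real.pi / 2) ≤ δ) (hρ : 1 ≤ ρ) (hρR : R < ρ)
    {w : ℂ} (hw : 0 ≤ w.re) : Complex.exp ((1 + η : ℝ) * Complex.log (w + ρ)) ∈ InSec R δ ∧
      ‖Complex.exp ((1 + η : ℝ) * Complex.log (w + ρ))‖ = ‖w + ρ‖ ^ (1 + η) ∧ ρ ≤ ‖w + ρ‖ := by
  have hre : 0 < (w + ρ).re := by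
    simp only [Complex.add_re, Complex.ofReal_re]
    linarith
  have hn : ρ ≤ ‖w + ρ‖ := by
    calc ρ ≤ (w + ρ).re := by simp only [Complex.add_re, Complex.ofReal_re]; linarith
      _ ≤ ‖w + ρ‖ := Complex.re_le_norm _
  have hpos : 0 < ‖w + ρ‖ := by linarith
  have hnorm : ‖Complex.exp ((1 + η : ℝ) * Complex.log (w + ρ))‖ = ‖w + ρ‖ ^ (1 + η) := by
    rw [Complex.norm_exp, Complex.re_ofReal_mul, Complex.log_re, Real.rpow_def_of_pos hpos]
    congr 1
    ring
  have harg : |(w + ρ).arg| < Real.pi / 2 := by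
    rw [Complex.abs_arg_lt_pi_div_two_iff]
    exact Or.inl hre
  have hpi := Real.pi_pos
  have him : |((1 + η : ℝ) * Complex.log (w + ρ)).im| < Real.pi / 2 + δ ∧
      |((1 + η : ℝ) * Complex.log (w + ρ)).im| < Real.pi := by
    rw [Complex.im_ofReal_mul, Complex.log_im, abs_mul, abs_of_pos (by linarith : 0 < 1 + η)]
    have h1 : (1 + η) * |(w + ρ).arg| < (1 + η) * (Real.pi / 2) := by
      apply mul_lt_mul_of_pos_left harg
      linarith
    constructor
    · nlinarith
    · nlinarith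
  refine ⟨⟨?_, ?_⟩, hnorm, hn⟩
  · rw [hnorm]
    calc R < ρ := hρR
      _ = ρ ^ (1 : ℝ) := (Real.rpow_one _).symm
      _ ≤ ρ ^ (1 + η) := Real.rpow_le_rpow_of_exponent_le hρ (by linarith)
      _ ≤ ‖w + ρ‖ ^ (1 + η) := Real.rpow_le_rpow (by linarith) hn (by linarith)
  · have h2 := abs_lt.1 him.2
    have h3 : (Complex.exp ((1 + η : ℝ) * Complex.log (w + ρ))).arg = ((1 + η : ℝ) * Complex.log (w + ρ)).im := by
      rw [← Complex.log_im, Complex.log_exp (by linarith) (by linarith)]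
    rw [h3]
    exact him.1

/-- a function of moderate growth in the sector which decays exponentially on the real axis vanishes there -/
theorem sec_zero {a : ℂ → ℂ} {R δ c C : ℝ} {N : ℕ} (hδ : 0 < δ) (hc : 0 < c)
    (han : ∀ z ∈ InSec R δ, DifferentiableAt ℂ a z) (hgr : ∀ z ∈ InSec R δ, ‖a z‖ ≤ C * ‖z‖ ^ N)
    (hdec : ∀ x : ℝ, R < x → 0 < x → ‖a x‖ ≤ C * x ^ N * Real.exp (-(c * x))) :
    ∃ X0 : ℝ, 0 < X0 ∧ ∀ x : ℝ, X0 < x → a x = 0 := by
  obtain ⟨ρ, hρ⟩ : ∃ ρ, ρ = max 1 (R + 1) := ⟨_, rfl⟩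
  have hρ1 : 1 ≤ ρ := by rw [hρ]; exact le_max_left _ _
  have hρR : R < ρ := by
    rw [hρ]
    exact lt_of_lt_of_le (by linarith) (le_max_right _ _)
  obtain ⟨η, hη0, hη1, hη⟩ : ∃ η : ℝ, 0 < η ∧ η < 1 ∧ η * (Real.pi / 2) ≤ δ := by
    have hpi := Real.pi_pos
    refine ⟨min (1 / 2) (δ / (Real.pi / 2)), by positivity, lt_of_le_of_lt (min_le_left _ _) (by norm_num), ?_⟩
    calc min (1 / 2) (δ / (Real.pi / 2)) * (Real.pi / 2) ≤ δ / (Real.pi / 2) * (Real.pi / 2) := by
          apply mul_le_mul_of_nonneg_right (min_le_right _ _) (by positivity)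
      _ = δ := by field_simp
  obtain ⟨φ, hφ⟩ : ∃ φ : ℂ → ℂ, φ = fun w => Complex.exp ((1 + η : ℝ) * Complex.log (w + ρ)) := ⟨_, rfl⟩
  obtain ⟨G, hG⟩ : ∃ G : ℂ → ℂ, G = fun w => a (φ w) / φ w ^ N := ⟨_, rfl⟩
  have hφm : ∀ w : ℂ, 0 ≤ w.re → φ w ∈ InSec R δ ∧ ‖φ w‖ = ‖w + ρ‖ ^ (1 + η) ∧ ρ ≤ ‖w + ρ‖ := by
    intro w hw
    rw [hφ]
    exact phi_mem hη0 hη1 hη hρ1 hρR hw
  have hφ0 : ∀ w, φ w ≠ 0 := fun w => by rw [hφ]; exact Complex.exp_ne_zero _
  have hGb : ∀ w : ℂ, 0 ≤ w.re → ‖G w‖ ≤ |C| := by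
    intro w hw
    rw [hG]
    simp only
    rw [norm_div, norm_pow, div_le_iff₀ (pow_pos (norm_pos_iff.2 (hφ0 w)) N)]
    exact (hgr _ (hφm w hw).1).trans (mul_le_mul_of_nonneg_right (le_abs_self C) (by positivity))
  -- the values on the real axis
  have hφr : ∀ x : ℝ, 0 ≤ x → φ x = (((x + ρ) ^ (1 + η) : ℝ) : ℂ) := by
    intro x hx
    have hxρ : 0 < x + ρ := by linarith
    rw [hφ]
    simp only
    rw [← Complex.ofReal_add, ← Complex.ofReal_log hxρ.le, ← Complex.ofReal_mul, ← Complex.ofReal_exp,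
      Real.rpow_def_of_pos hxρ, mul_comm]
  have hzero : Set.EqOn G 0 {z : ℂ | 0 ≤ z.re} := by
    apply PhragmenLindelof.eq_zero_on_right_half_plane_of_superexponential_decay
    · apply DifferentiableOn.diffContOnCl
      rw [Complex.closure_setOf_lt_re]
      intro w hw
      have hw' : 0 ≤ w.re := hw
      apply DifferentiableAt.differentiableWithinAt
      have h1 : DifferentiableAt ℂ φ w := by
        rw [hφ]
        apply DifferentiableAt.cexp
        apply DifferentiableAt.const_mul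
        apply DifferentiableAt.clog
        · exact differentiableAt_id.add_const _
        · left
          simp only [Complex.add_re, Complex.ofReal_re]
          linarith
      rw [hG]
      exact ((han _ (hφm w hw').1).comp w h1).div (h1.pow N) (pow_ne_zero _ (hφ0 w))
    · refine ⟨1, by norm_num, 0, ?_⟩
      apply IsBigO.of_bound |C|
      filter_upwards [mem_inf_of_right (mem_principal_self _)] with w hw
      have hw' : 0 < w.re := hw
      simpa using hGb w hw'.le
    · intro n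
      have hlim : Tendsto (fun x : ℝ => |C| * Real.exp (-(x * (c * x ^ η - n)))) atTop (𝓝 0) := by
        have h1 : Tendsto (fun x : ℝ => c * x ^ η - n) atTop atTop := by
          apply tendsto_atTop_add_const_right
          exact (tendsto_rpow_atTop hη0).const_mul_atTop hc
        have h2 : Tendsto (fun x : ℝ => -(x * (c * x ^ η - n))) atTop atBot :=
          tendsto_neg_atTop_atBot.comp (tendsto_id.atTop_mul_atTop₀ h1)
        have h3 := (Real.tendsto_exp_atBot.comp h2).const_mul |C|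
        simpa using h3
      refine squeeze_zero_norm' ?_ hlim
      filter_upwards [eventually_ge_atTop (1 : ℝ)] with x hx
      have hx0 : 0 ≤ x := by linarith
      have hy : 0 < (x + ρ) ^ (1 + η) := Real.rpow_pos_of_pos (by linarith) _
      have hyR : R < (x + ρ) ^ (1 + η) := by
        have h5 := (hφm x (by simpa using hx0)).1.1
        rw [hφr x hx0, Complex.norm_real, Real.norm_eq_abs, abs_of_pos hy] at h5
        exact h5
      have h4 : ‖G x‖ ≤ |C| * Real.exp (-(c * (x + ρ) ^ (1 + η))) := by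
        rw [hG]
        simp only
        rw [hφr x hx0, norm_div, norm_pow, Complex.norm_real, Real.norm_eq_abs, abs_of_pos hy,
          div_le_iff₀ (pow_pos hy N)]
        calc ‖a (((x + ρ) ^ (1 + η) : ℝ) : ℂ)‖ ≤
            C * ((x + ρ) ^ (1 + η)) ^ N * Real.exp (-(c * (x + ρ) ^ (1 + η))) := hdec _ hyR hy
          _ ≤ |C| * ((x + ρ) ^ (1 + η)) ^ N * Real.exp (-(c * (x + ρ) ^ (1 + η))) := by
              gcongr
              exact le_abs_self C
          _ = _ := by ring
      rw [Real.norm_eq_abs, abs_of_nonneg (by positivity), ← Real.exp_nat_mul]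
      calc Real.exp (n * x) * ‖G x‖ ≤ Real.exp (n * x) * (|C| * Real.exp (-(c * (x + ρ) ^ (1 + η)))) := by gcongr
        _ = |C| * Real.exp (n * x - c * (x + ρ) ^ (1 + η)) := by
            rw [sub_eq_add_neg, Real.exp_add]
            ring
        _ ≤ |C| * Real.exp (-(x * (c * x ^ η - n))) := by
            apply mul_le_mul_of_nonneg_left _ (abs_nonneg _)
            apply Real.exp_le_exp.2
            have h6 : x ^ (1 + η) ≤ (x + ρ) ^ (1 + η) := Real.rpow_le_rpow hx0 (by linarith) (by linarith)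
            have h7 : x ^ (1 + η) = x * x ^ η := by
              rw [Real.rpow_add (by linarith), Real.rpow_one]
            rw [h7] at h6
            nlinarith
    · refine ⟨|C|, fun x => hGb _ ?_⟩
      simp
  refine ⟨ρ ^ (1 + η), Real.rpow_pos_of_pos (by linarith) _, fun x hx => ?_⟩
  have hρp : 0 < ρ ^ (1 + η) := Real.rpow_pos_of_pos (by linarith) _
  have hx0 : 0 < x := hρp.trans hx
  obtain ⟨y, hy⟩ : ∃ y, y = x ^ (1 / (1 + η)) := ⟨_, rfl⟩
  have hyx : y ^ (1 + η) = x := by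
    rw [hy, ← Real.rpow_mul hx0.le, one_div_mul_cancel (by linarith), Real.rpow_one]
  have hy0 : 0 ≤ y := by rw [hy]; positivity
  have hρy : ρ ≤ y := by
    by_contra hlt
    rw [not_le] at hlt
    have := Real.rpow_lt_rpow hy0 hlt (by linarith : 0 < 1 + η)
    rw [hyx] at this
    linarith
  have h1 := hzero (show ((y - ρ : ℝ) : ℂ) ∈ {z : ℂ | 0 ≤ z.re} by
    simp only [Set.mem_setOf_eq, Complex.ofReal_re]
    linarith)
  rw [hG] at h1
  simp only [Pi.zero_apply] at h1
  rw [hφr _ (by linarith), sub_add_cancel, hyx] at h1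
  rcases div_eq_zero_iff.1 h1 with h2 | h2
  · exact h2
  · exact absurd h2 (pow_ne_zero _ (by exact_mod_cast hx0.ne'))

end Pool.Agent.Y627.EP
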